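import Pool.Agent.Lib.Z9f173dB.Fin
import Pool.Agent.Lib.Z9f173dB.Am
import Pool.Agent.Lib.Z9f173dB.Eu

/-!
# Zero in the spectrum for compact aspherical manifolds with nonempty boundary

Let `M` be a compact aspherical manifold with nonempty boundary, `G` its fundamental group, `N_0` a
component of the boundary and `K` the image of `π_1(N_0)` in `G`.  The boundary is arbitrary: it may
be compressible, its components need not be aspherical, and nothing is assumed on `G`.

We prove that the homology of `M` with coefficients in `C_r^*(G)` is nonzero in some degree if the
dimension of `M` is at most four.  In any dimension the same holds if the homology of `N_0` with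
coefficients in `C_r^*(K)` is nonzero in some degree, for instance if `K` is amenable or the Euler
characteristic of `N_0` is not zero.

Idea of the proof.  Assume that the homology of `M` vanishes over `C_r^*(G)`.  The chain complex is then
contractible over `C_r^*(G)`, so is its dual, that is the complex of the pair `(M, ∂ M)`, and hence
the complex of the boundary.  The component `N_0` gives a direct summand, induced from `K`; the conditional
expectation `C_r^*(G) → C_r^*(K)` shows that the homology of `N_0` vanishes over `C_r^*(K)`.

In dimension four the vanishing in degrees at most two gives `H^j(G; ℤ[G]) = 0` for `j ≤ 2`
(theorem on amenable subgroups of codimension two, for the trivial subgroup).  By Lefschetz duality the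
pair of the universal cover and its boundary has no integral homology in degrees at least two, so every component
of the boundary of the universal cover is acyclic.  So `K` has a resolution of length three by the
chains of the cover of `N_0`, and `H^3(K; ℤ[K]) = ℤ` by Poincare duality.  The group `K` is torsion free and
not trivial, so it contains an element of infinite order; the same theorem for the cyclic subgroup
generated by its square contradicts the vanishing of the homology of `K` over `C_r^*(K)`.
-/

universe u

namespace Pool.Agent.Results.MP_9f173d_gt.AsphericalBoundary

open Z9f173d Z9f173dB

/-- Let `M` be a compact aspherical manifold of dimension `n + 1` with nonempty boundary,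
fundamental group `G`, given by its chain complexes and those of the boundary component `N` with
image `K` in `G`.  Assume that `n + 1 ≤ 4`, or that `K` is amenable, or that the Euler characteristic of the
boundary component is not zero, or that its homology with coefficients in `C_r^*(K)` is not zero in some
degree.  Then the homology of `M` with coefficients in `C_r^*(G)` is not zero in some degree. -/
theorem result {G : Type u} [Group G] {n : ℕ} (M : AsphericalPair G n)
    (h : n + 1 ≤ 4 ∨ FoelnerAmenable M.K ∨
      (∑ i ∈ Finset.range (n + 1), (-1 : ℤ) ^ i * (M.N.rank i : ℤ) ≠ 0) ∨
      ∃ q, Nontrivial (M.N.homology q)) :
    ∃ i, Nontrivial (M.C.homology i) := by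
  rcases h with h | h | h | h
  · exact dim_le_four (by omega) M
  · refine any_dim M ⟨0, ?_⟩
    by_contra h0
    exact not_ex_of_amenable M.K M.N M.aug M.aug_surj M.exact_zero h
      ((not_nontrivial_homologyWith M.N (toCRed M.K) 0).1 h0)
  · refine any_dim M ?_
    by_contra h0
    exact h (euler M.N n M.N_top fun q =>
      (not_nontrivial_homologyWith M.N (toCRed M.K) q).1 fun hq => h0 ⟨q, hq⟩)
  · exact any_dim M h

end Pool.Agent.Results.MP_9f173d_gt.AsphericalBoundary
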