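import Pool.Agent.Lib.Z9f173dD.All

/-!
# Zero in the spectrum in dimensions two and three, and for polycyclic subgroups of full dimension

Let `π` be the fundamental group of a finite aspherical complex `M`, and let `C_*` be the cellular
chain complex of the universal cover, a resolution of `ℤ` by finitely generated free
`ℤ[π]`-modules.  We prove that `H_i(M; C_r^*(π)) ≠ 0` for some `i` in the following cases:
`dim M ≤ 2`; `dim M = 3` and every `2`-cell lies in at most two `3`-cells; `dim M = 3` and `π` does
not act freely on the non-zero elements of `H^3(π; ℤ[π])`, or `H^3(π; ℤ[π])` is a torsion group; in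
any dimension, an element of infinite order fixes a non-zero element of `H^3(π; ℤ[π])` (for instance
`π` is a Poincaré duality group of dimension `3`); in any dimension, for some amenable subgroup `Λ`,
`H^j(π; ℤ[π/Λ]) ≠ 0` for some `j ≤ 2`, or a class of `H^j(π; ℤ[π/Λ])` pairs non-trivially with a
class of `H_j(Λ; ℤ)`; in any dimension `n`, `π` has a poly-(infinite cyclic) subgroup of Hirsch
length `n` (for instance `ℤ^n`).

Idea of the proof.  Suppose the homology vanishes in degrees `0, 1, 2`.  Then the unreduced
cohomology of `π` with coefficients in every unitary representation weakly contained in the regular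
one vanishes in degrees `≤ 2`; this covers the representations induced from unitary characters of
amenable subgroups.  Let `Q` be the group of circle valued functions on `π/Λ` which are square
summably close to `0`, so that `0 → ℤ[π/Λ] → ℓ²(π/Λ; ℝ) → Q → 0` is exact.  A `1`-cocycle in `Q` is
the coboundary of a circle valued function `u` on `π`, and `exp(2πiu)` is a bounded complex function
whose translates differ from it by square summable functions, in a representation induced from
a character of `Λ`.  By vanishing in degree one it is the sum of a constant and of a square
summable function; so the cocycle is a coboundary in `Q`, and `H^2(π; ℤ[π/Λ])`, which injects into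
`H^2(π; ℓ²(π/Λ)) = 0`, is zero.  For `Λ` generated by an element `g` of infinite order it follows
that `1 - g` is injective on `D = H^3(π; ℤ[π])`.  If `dim M ≤ 3` and `n D = 0` with `n ≠ 0`, the
cochain complex with compact supports has a contraction up to `n`; by duality `n ℤ = 0`, which is
absurd.  Let every `2`-cell lie in at most two `3`-cells, and let `c ∈ D` be the class of a `3`-cell
of the universal cover.  As `1 - g²` is injective, the cells with class `± c` are pairwise
inequivalent under `π` if `c ≠ 0`; so they are finitely many, and if `2c ≠ 0` their sum, with
signs, is a cycle: contradiction.  So `2D = 0`.  Finally, if the homology vanishes in degrees `≤ j`,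
a `j`-cocycle of `π` in `ℤ[π/Λ]`, `Λ` amenable, that is a cocycle with compact support of the
covering of `M` with group `Λ`, is the coboundary of a square summable cochain of this covering; so
it is orthogonal to its finite cycles.  If `Λ` is poly-(infinite cyclic) of Hirsch length
`n = dim M`, this covering has a non-zero finite `n`-cycle, with coefficients twisted by a character
with values `± 1`, and the same argument applies to it and to a single `n`-cell.
-/

universe u

namespace Pool.Agent.Results.MP_9f173d_gt.LowDimensions

open Z9f173d

/-- Let `C` be a resolution of `ℤ` by finitely generated free `ℤ[G]`-modules (for instance the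
cellular chain complex of the universal cover of a finite aspherical complex `M` with fundamental
group `G`), and let `m` be a natural number.  Assume one of:

* `m = 2`, `C` has length at most `3`, and `H^3(G; ℤ[G])` is a torsion group (for instance
  `dim M ≤ 2`), or the sum of the absolute values of the coefficients in every column of the matrix
  of `C_3 → C_2` is at most `2` (for instance `dim M = 3` and every `2`-cell is met at most twice by
  the boundaries of the `3`-cells);
* `m = 2`, and an element `g` of `G` of infinite order fixes a non-zero class in `H^3(G; ℤ[G])`, on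
  which `G` acts by right multiplication on the coefficients;
* `m = 2`, and `G` has an amenable subgroup `Λ` with `H^j(G; ℤ[G/Λ]) ≠ 0` for some `j ≤ 2`;
* `G` has an amenable subgroup `Λ` such that the class of a cocycle `f` in `H^m(G; ℤ[G/Λ])` pairs
  non-trivially with the class of a cycle `x` in `H_m(G; ℤ[G/Λ]) = H_m(Λ; ℤ)` (a chain is a cycle
  if and only if it is orthogonal to all coboundaries);
* `C` has length at most `m`, and `G` has a poly-(infinite cyclic) subgroup of Hirsch length `m`.

Then `H_i(C_r^*(G) ⊗ C_*) ≠ 0` for some `i ≤ m`. -/
theorem result {G : Type u} [Group G] (C : FinRes G) (m : ℕ)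
    (h : (m = 2 ∧ (((∀ i, 3 < i → C.rank i = 0) ∧ ((∀ c : C.cohomology G 3, IsOfFinAddOrder c) ∨
          ∀ b, ∑ a, ∑ x ∈ (C.d 2 a b).coeff.support, ((C.d 2 a b).coeff x).natAbs ≤ 2)) ∨
        (∃ (g : G) (z : Fin (C.rank 3) → MonoidAlgebra ℤ G), ¬ IsOfFinOrder g ∧
          C.cobd G 3 z = 0 ∧ z ∉ C.coboundaries G 3 ∧
          (fun a => z a * MonoidAlgebra.single g 1 - z a) ∈ C.coboundaries G 3) ∨
        (∃ Λ : Subgroup G, FoelnerAmenable Λ ∧
          ∃ j ≤ 2, Nontrivial (C.cohomology (G ⧸ Λ) j)))) ∨
      (∃ (Λ : Subgroup G) (x f : Fin (C.rank m) → MonoidAlgebra ℤ (G ⧸ Λ)), FoelnerAmenable Λ ∧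
        (∀ b ∈ C.coboundaries (G ⧸ Λ) m, cpair b x = 0) ∧ C.cobd (G ⧸ Λ) m f = 0 ∧
        cpair f x ≠ 0) ∨
      ((∀ i, m < i → C.rank i = 0) ∧ ∃ t : Fin m → G, PolyZ t)) :
    ∃ i ≤ m, Nontrivial (C.homology i) :=
  low_dim_all C m h

end Pool.Agent.Results.MP_9f173d_gt.LowDimensions
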