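import Pool.Agent.Lib.P9f173dR.Repr

/-!
Nonvanishing of homology with coefficients in the reduced group algebra, for groups commensurable
with a commensurated subgroup (for example a subgroup of finite index, or a normal subgroup of a
subgroup of finite index) of the semidirect product `W ⋊ G` of a Coxeter group `W` and a group `G`
of diagram automorphisms.

Such groups arise from reflections.  If a closed aspherical manifold `M` has an involution, the lifts
of the involution to the universal cover that fix a hypersurface over a given component `F` of the
fixed point set generate a reflection group `W` (a free product of groups of order two); let `G` be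
the subgroup of `π = π₁(M)` that preserves a chamber.  Then `W ⋊ G` is commensurable with `π`, the
only nonempty spherical subsets are the one-element sets `{s}`, and the stabiliser `G_s` acts freely
and cocompactly on an acyclic hypersurface, with quotient `F` or a double cover of `F`.  So the
function below is `χ(G) - k χ(F) / (1 + t)` with `k > 0`, and it is not identically zero if
`χ(F) ≠ 0`.  The double of a finite aspherical complex along a subcomplex, and Davis' reflection
group trick (where the stabilisers are trivial), are other examples.

Idea of the proof.  Suppose that the homology of `π` vanishes.  Then the cohomology of `Δ`, and of all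
subgroups commensurable with `Δ`, with coefficients in `ℓ²(P)` vanishes, where `P` is the commensurator
of `Δ` in `W ⋊ G`; the class of the `P`-modules `V` with this property is closed under
`V ↦ Map(P / Δ, V) / V`, and a dimension shift gives the vanishing for `P` itself, and so for `W ⋊ G`.
Hence a complex of projective modules built from free resolutions of the stabilisers of the spherical
subsets is exact over the reduced group algebra of `W ⋊ G`.  Exactness is preserved when the group
algebra of `W` is deformed to its Hecke algebra with parameter `t` close to `1`; the von Neumann traces
then give the identity `∑ (-1) ^ |T| χ(G_T) / W_T(t) = 0` for all such `t`, hence for all `t > 0`.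
-/

namespace Pool.Agent.Results.MP_9f173d_gt.Reflections

open Pool.Agent.Lib.P9f173d Pool.Agent.Lib.P9f173dR

open scoped Pointwise

/-- Let `(W, S)` be a Coxeter system with generators indexed by `B`, and let `G` be a group acting on
`B` by diagram automorphisms.  Let `r` be a finite set of representatives of the orbits of `G` on the
nonempty subsets `T` of `B` that generate a finite subgroup of `W`, and assume that `G` and the
stabilisers `G_T` of the members of `r` have finite free resolutions of the trivial module.

Assume that `χ(G) ≠ 0`, or that the sum of `χ(G_s)` over the one-element sets `{s}` in `r` is not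
zero, or, more generally, that the function `f(t) = χ(G) + ∑ (-1) ^ |T| χ(G_T) / W_T(t)` is not
identically zero on `t > 0`, where the sum is over `T` in `r` and `W_T(t)` is the growth function of
the subgroup generated by `T`.

Let `π` be a group that has a subgroup of finite index isomorphic to a subgroup of `W ⋊ G` whose
commensurator has finite index (a group `Δ` embeds in both groups), and let `R` be any finite free
resolution of the trivial module over `ℤ[π]` (for example the cellular chain complex of the
universal cover of a finite aspherical complex with fundamental group `π`).  Let `H = ℓ²(π)` be the
Hilbert space with orthonormal basis `e` indexed by `π`, and let `lam` be the left regular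
representation, so that `redAlg lam` is the reduced group algebra of `π`.  Then the homology of `R`
with coefficients in the reduced group algebra of `π` is nonzero in some degree.

The third alternative contains the first two (let `t → ∞`).  Up to a positive factor `f(1)` is the
Euler characteristic of the torsion-free groups commensurable with `W ⋊ G`. -/
theorem result {B W G : Type*} [Group W] [Group G] [MulAction G B]
    {M : CoxeterMatrix B} (cs : CoxeterSystem M W) (φ : G →* MulAut W)
    (hφ : ∀ (g : G) (b : B), φ g (cs.simple b) = cs.simple (g • b))
    (F : FinRes G)
    (r : Finset (Set B))
    (hr : ∀ T : Set B, (∃ T' ∈ r, ∃ g : G, g • T' = T) ↔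
      T.Nonempty ∧ Finite (Subgroup.closure (cs.simple '' T)))
    (hr' : ∀ T ∈ r, ∀ T' ∈ r, ∀ g : G, g • T = T' → T = T')
    (E : ∀ T : r, FinRes (MulAction.stabilizer G (T : Set B)))
    (hE : chi F ≠ 0 ∨ (∑ T : r, if (T : Set B).ncard = 1 then chi (E T) else 0) ≠ 0 ∨
      ∃ t : ℝ, 0 < t ∧
        chi F + ∑ T : r, (-1 : ℝ) ^ (T : Set B).ncard * chi (E T) / growth cs T t ≠ 0)
    {π Δ : Type*} [Group π] [Group Δ]
    (α : Δ →* W ⋊[φ] G) (hα : Function.Injective α)
    (hα' : (Subgroup.Commensurable.commensurator α.range).FiniteIndex)
    (β : Δ →* π) (hβ : Function.Injective β) (hβ' : β.range.FiniteIndex)
    (R : FinRes π)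
    {H : Type*} [NormedAddCommGroup H] [InnerProductSpace ℂ H] [CompleteSpace H]
    (e : HilbertBasis π ℂ H) (lam : π →* (H →L[ℂ] H)) (hlam : ∀ g h, lam g (e h) = e (g * h)) :
    ∃ i : ℕ, HomologyNonzero R lam i := by
  obtain ⟨i, hi⟩ := main_theoremR' cs φ hφ F r hr hr' E hE R.toFreeRes α hα hα' β hβ hβ' e lam
    hlam
  exact ⟨i, homologyNonzero_of_nontrivial R lam hi⟩

end Pool.Agent.Results.MP_9f173d_gt.Reflections
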