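import Pool.Agent.Lib.Z9f173d.HierCx

/-!
# Zero in the spectrum for groups that split over amenable or hierarchical subgroups

Let `π` be the fundamental group of a finite aspherical complex `M`, and let `C_*` be the cellular
chain complex of the universal cover, a resolution of `ℤ` by finitely generated free
`ℤ[π]`-modules.  We prove that `H_i(M; C_r^*(π)) ≠ 0` for some `i ≤ 2` if `π` splits over a subgroup
`S` (or, more generally, has at least two ends relative to `S`) which is amenable, or which has a
finite hierarchy over amenable groups (virtually free groups, surface groups, limit groups, graph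
manifold groups); nothing is assumed on the vertex groups.  The same holds if `π` acts on a rationally
acyclic complex of dimension `2` with amenable stabilisers of the faces, amenable or hierarchical
stabilisers of the edges, and no finite orbit on the vertices.

Idea of the proof.  Suppose the homology vanishes in degrees `0, 1, 2`.  Then `H^j(π; ℚ[X]) = 0` for
`j ≤ 2` and every `π`-set `X` with amenable stabilisers (this is the exponential argument explained in
`LowDimensions`), and `H^1(π; ℚ[X]) = 0` follows for the hierarchical `π`-sets `X` from the exact
sequences `0 → ℚ[edges] → ℚ[vertices] → ℚ[components] → 0` of forests, and by averaging over finite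
fibres.  A subset of `X` which is almost invariant defines a class in `H^1(π; ℚ[X])`; and
`H^1(π; ℚ[X₁]) = 0` and `H^2(π; ℚ[X₂]) = 0` imply that `N → ℚ` splits.
-/

universe u

namespace Pool.Agent.Results.MP_9f173d_gt.Splittings

open Z9f173d

/-- Let `C` be a resolution of `ℤ` by finitely generated free `ℤ[G]`-modules (for instance the
cellular chain complex of the universal cover of a finite aspherical complex `M` with fundamental
group `G`).  Assume one of:

* `G` has a subgroup `S` of codimension one such that `G/S` is hierarchical: there is an infinite
  subset `B` of `G/S` with infinite complement such that `gB` and `B` differ by a finite set for all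
  `g` (for instance `G` is a nontrivial amalgam or an HNN extension over `S`);
* there is an exact sequence `0 → ℚ[X₂] → ℚ[X₁] → N → ℚ → 0` of `G`-modules, where `X₂` is a `G`-set
  with amenable stabilisers, `X₁` is a hierarchical `G`-set, and no fixed element of `N` is mapped
  to `1` (for instance `N = ℚ[X₀]`, the chains of a rationally acyclic complex of dimension `2` on
  which `G` acts without finite orbit on the vertices).

Then `H_i(C_r^*(G) ⊗ C_*) ≠ 0` for some `i ≤ 2`. -/
theorem result {G : Type u} [Group G] (C : FinRes G)
    (h : (∃ (S : Subgroup G) (B : Set (G ⧸ S)), Hier G (G ⧸ S) ∧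
        (∀ g : G, {x : G ⧸ S | ¬ (g • x ∈ B ↔ x ∈ B)}.Finite) ∧ B.Infinite ∧ Bᶜ.Infinite) ∨
      (∃ R : RelRes ℚ G, Hier G R.X₁ ∧
        (∀ x : R.X₂, FoelnerAmenable (MulAction.stabilizer G x)) ∧
        ∀ n : R.N, (∀ g : G, g • n = n) → R.ε n ≠ 1)) :
    ∃ i ≤ 2, Nontrivial (C.homology i) :=
  final6 C (h.elim (fun h => Or.inr (Or.inr (Or.inr (Or.inl h))))
    (fun h => Or.inr (Or.inr (Or.inr (Or.inr (Or.inr h))))))

end Pool.Agent.Results.MP_9f173d_gt.Splittings
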